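import Pool.Agent.W484.CK.Stm

/-!
# Definitions for `MP_3af9db_ag.HyperplaneCoverings`
-/

set_option autoImplicit false

open Finset Polynomial CategoryTheory AlgebraicGeometry
open scoped TensorProduct

namespace Pool.Agent.N876.GB3

open Pool.Agent.H914 Pool.Agent.H914.VarClass Pool.Agent.H914.VarClass.Obj Pool.Agent.W492.BB
  Pool.Agent.W484.CK

/-- A cyclic covering `w ^ N = ∏ l_k (x) ^ a_k` of the projective space of dimension `n`, and a root of
unity `z`. -/
structure Covering (κ : Type) [Field κ] : Type where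
  N : ℕ
  n : ℕ
  s : ℕ
  l : Fin s → Fin (n + 1) → κ
  a : Fin s → ℕ
  z : κ

/-- `z` has order `N ≥ 2`, the exponents are prime to `N` and their sum is divisible by `N`. -/
structure Covering.IsAdmissible {κ : Type} [Field κ] (X : Covering κ) : Prop where
  two_le : 2 ≤ X.N
  root : IsPrimitiveRoot X.z X.N
  coprime : ∀ k, (X.a k).Coprime X.N
  dvd : X.N ∣ ∑ k, X.a k

/-- The value of the form `∏ l_k ^ a_k` at a vector with coordinates in `L`. -/
def Covering.value {κ : Type} [Field κ] (X : Covering κ) (L : Type) [Field L] [Algebra κ L]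
    (x : Fin (X.n + 1) → L) : L :=
  ∏ k, (∑ t, algebraMap κ L (X.l k t) * x t) ^ X.a k

/-- The number of vectors over `L` where the form is not zero. -/
noncomputable def Covering.openCount {κ : Type} [Field κ] (X : Covering κ) (L : Type) [Field L]
    [Algebra κ L] : ℕ :=
  Set.ncard {x : Fin (X.n + 1) → L | X.value L x ≠ 0}

/-- The number of vectors over `L` where the form is not zero and its power with the exponent
`(|L| - 1) / N` is `z ^ i`. -/
noncomputable def Covering.fixCount {κ : Type} [Field κ] (X : Covering κ) (L : Type) [Field L]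
    [Fintype L] [Algebra κ L] (i : ℕ) : ℕ :=
  Set.ncard {x : Fin (X.n + 1) → L | X.value L x ≠ 0 ∧
    (X.value L x) ^ ((Fintype.card L - 1) / X.N) = algebraMap κ L X.z ^ i}

/-- `T` is the part without invariants of the cohomology of degree `n` of a smooth projective model
of the covering, with the Frobenius `Φ` and the generator `g` of the covering group. The trace
of `Φ ^ [L : κ] g ^ i` is up to the sign the difference of the number of fixed points over the open
set `∏ l_k ≠ 0` of projective space (`N` points over each point where the form has the power residue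
symbol `z ^ i`) and of the number of the points of this open set. -/
structure IsCyclicCovering {κ : Type} [Field κ] (X : Covering κ) {K T : Type} [Field K]
    [AddCommGroup T] [Module K T] (Φ g : Module.End K T) : Prop where
  commute : Commute Φ g
  order : g ^ X.N = 1
  invariants : ∀ t, g t = t → t = 0
  lefschetz : ∀ (L : Type) [Field L] [Fintype L] [Algebra κ L] (i : ℕ),
    ((Fintype.card L : K) - 1) *
        ((-1) ^ X.n * LinearMap.trace K T (Φ ^ Module.finrank κ L * g ^ i)) =
      (X.N : K) * (X.fixCount L i : K) - (X.openCount L : K)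

/-- The mean over `j, c j, …, c ^ (f - 1) j` of the sum of the fractional parts of `j a_k / N`. -/
def Covering.weight {κ : Type} [Field κ] (X : Covering κ) (c f j : ℕ) : ℚ :=
  (∑ k, ∑ t ∈ range f, (((j * X.a k * c ^ t) % X.N : ℕ) : ℚ)) / (f * X.N)

/-- The condition on the exponents. -/
def IsSmall {κ : Type} [Field κ] {ι : Type} (X : ι → Covering κ) (c f N lam : ℕ) : Prop :=
  ∀ I : Finset ι, I.Nonempty → ∀ j : ι → ℕ, (∀ i ∈ I, ¬ (X i).N ∣ j i) →
    ∃ u : ℕ, u.Coprime N ∧
      ∑ i ∈ I, (X i).weight c f (u * j i) + (lam : ℚ) / 2 < ∑ i ∈ I, (((X i).n : ℚ) / 2 + 1)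

/-- The space `H` is generated by the subspace `P` (the classes of algebraic cycles) and a subspace `T`
which is stable under `Φ` (the Frobenius) and `g` (a generator of the covering group), `T` is the part
without invariants (`IsCyclicCovering`), and pure of weight `n`. The complex numbers enter by an
embedding `τ` of the coefficient field. -/
def IsCoveringCohomology {κ : Type} [Field κ] [Fintype κ] (C : Covering κ) {K H : Type} [Field K]
    [AddCommGroup H] [Module K H] (P : Submodule K H) (Φ g : Module.End K H) (τ : K →+* ℂ) : Prop :=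
  ∃ (T : Submodule K H) (hΦ : ∀ t ∈ T, Φ t ∈ T) (hg : ∀ t ∈ T, g t ∈ T), P ⊔ T = ⊤ ∧
    IsCyclicCovering C (Φ.restrict hΦ) (g.restrict hg) ∧
    ∀ α, Module.End.HasEigenvalue (Φ.restrict hΦ) α → ‖τ α‖ ^ 2 = (Fintype.card κ : ℝ) ^ C.n

/-- The images of the eigenvalues of `Φ` under the embedding `τ` of the coefficient field. -/
def eigenvalues {K H : Type} [Field K] [AddCommGroup H] [Module K H] (Φ : Module.End K H)
    (τ : K →+* ℂ) : Set ℂ :=
  {b | ∃ β : K, Φ.HasEigenvalue β ∧ τ β = b}

/-- The conditions on a set `B` of complex numbers: they are algebraic with `|b| ^ 2 = q ^ j`, and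
either `lam = 0` and the cyclotomic polynomial of order `N` is irreducible over the field generated
by `B`, or `B` is of level at most `lam`. -/
def IsGoodBase (q N lam : ℕ) (B : Set ℂ) : Prop :=
  (∀ b ∈ B, IsAlgebraic ℚ b ∧ ∃ j : ℕ, ‖b‖ ^ 2 = (q : ℝ) ^ j) ∧
    ((lam = 0 ∧ Irreducible (cyclotomic N (IntermediateField.adjoin ℚ B))) ∨
      ∀ b ∈ B, IsIntegral ℤ ((q : ℂ) ^ lam * b / starRingEnd ℂ b))

/-- An endomorphism of an algebra as a linear map. -/
def ofHom {K H : Type} [Field K] [Ring H] [Algebra K H] (g : H →ₐ[K] H) : Module.End K H :=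
  g.toLinearMap

/-- `IsCoveringCohomology` for endomorphisms of an algebra. -/
def IsCoveringAlgebra {κ : Type} [Field κ] [Fintype κ] (C : Covering κ) {K H : Type} [Field K]
    [Ring H] [Algebra K H] (P : Submodule K H) (φ g : H →ₐ[K] H) (τ : K →+* ℂ) : Prop :=
  IsCoveringCohomology C P (ofHom φ) (ofHom g) τ

/-- The images of the eigenvalues of an endomorphism of an algebra. -/
def eigenvaluesOf {K H : Type} [Field K] [Ring H] [Algebra K H] (φ : H →ₐ[K] H) (τ : K →+* ℂ) :
    Set ℂ :=
  eigenvalues (ofHom φ) τ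

/-- The images under `τ` of the products of the eigenvalues of an endomorphism of an algebra and
the roots of the polynomial `χ`. -/
def productsOf {K H : Type} [Field K] [CharZero K] [Ring H] [Algebra K H] (φ : H →ₐ[K] H)
    (χ : ℚ[X]) (τ : K →+* ℂ) : Set ℂ :=
  {b | ∃ β ρ : K, (ofHom φ).HasEigenvalue β ∧ aeval ρ χ = 0 ∧ τ (β * ρ) = b}

/-- The field `κ` has `c ^ f` elements, the coverings are admissible, `N` is a common multiple of
their degrees, and `IsSmall` holds. -/
structure IsSmallSystem {κ : Type} [Field κ] [Fintype κ] {ι : Type} (C : ι → Covering κ)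
    (c f N lam : ℕ) : Prop where
  card : Fintype.card κ = c ^ f
  admissible : ∀ i, (C i).IsAdmissible
  pos : 0 < N
  dvd : ∀ i, (C i).N ∣ N
  small : IsSmall C c f N lam

/-- The tensor product of `A` and `M`. -/
def Tens (K A M : Type) [Field K] [AddCommGroup A] [Module K A] [AddCommGroup M] [Module K M] :
    Type := A ⊗[K] M

noncomputable instance (K A M : Type) [Field K] [AddCommGroup A] [Module K A] [AddCommGroup M]
    [Module K M] : AddCommGroup (Tens K A M) :=
  @TensorProduct.addCommGroup K _ A M _ _ _ _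

noncomputable instance (K A M : Type) [Field K] [AddCommGroup A] [Module K A] [AddCommGroup M]
    [Module K M] : Module K (Tens K A M) :=
  @TensorProduct.instModule K _ A M _ _ _ _

/-- The element `a ⊗ x`. -/
noncomputable def Tens.tmul {K A M : Type} [Field K] [AddCommGroup A] [Module K A] [AddCommGroup M]
    [Module K M] (a : A) (x : M) : Tens K A M := a ⊗ₜ[K] x

/-- The map `f ⊗ g`. -/
noncomputable def Tens.map {K A M : Type} [Field K] [AddCommGroup A] [Module K A] [AddCommGroup M]
    [Module K M] (f : Module.End K A) (g : Module.End K M) : Module.End K (Tens K A M) :=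
  TensorProduct.map f g


section geometry

variable {κ : Type} [Field κ] {𝒱 : VarClass κ} {A : TheoryData.{0, 0, 0} 𝒱 ℚ} {K : Type} [Field K]

/-- The span of the classes of cycles on `X`. -/
def cycleSpan (H : WeilTheoryData.{0, 0, 0} A K) (X : 𝒱.Obj) : Submodule K (H.A X) :=
  Submodule.span K {a | ∃ (i : ℕ) (z : A.A X), A.Deg i z ∧ a = H.cl z}

/-- `X`, with the Frobenius endomorphism `φ`, is a model of the covering `C`, with a generator `g` of
the covering group. -/
def IsModel [Fintype κ] (C : Covering κ) (H : WeilTheoryData.{0, 0, 0} A K) {X : 𝒱.Obj}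
    (φ : X ⟶ X) (τ : K →+* ℂ) : Prop :=
  ∃ g : X ⟶ X, IsCoveringAlgebra C (cycleSpan H X) (H.pull φ) (H.pull g) τ

/-- There is a divisor on `X` whose power with the exponent `dim X` is not zero in the cohomology. -/
def IsPolarized (H : WeilTheoryData.{0, 0, 0} A K) (X : 𝒱.Obj) : Prop :=
  ∃ D : A.A X, A.Deg 1 D ∧ H.cl D ^ X.dim ≠ 0

/-- The product `X i₁ × (X i₂ × (⋯ × Z))`. -/
noncomputable def productOf {ι : Type} (X : ι → 𝒱.Obj) (Z : 𝒱.Obj) : List ι → 𝒱.Obj
  | [] => Z
  | i :: L => (X i).prod (productOf X Z L)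

/-- The sum of the dimensions of the `X i`. -/
def dimension {ι : Type} (X : ι → 𝒱.Obj) : List ι → ℕ
  | [] => 0
  | i :: L => (X i).dim + dimension X L

/-- `F` is the Frobenius endomorphism of the varieties over `κ`, the varieties `X i` are models of the
coverings, and `Z` and the polynomial `χ` satisfy `IsGoodBase`. -/
structure IsCoveringSystem [Fintype κ] [CharZero K] {ι : Type} (C : ι → Covering κ) (N lam : ℕ)
    (H : WeilTheoryData.{0, 0, 0} A K) (τ : K →+* ℂ) (F : ∀ X : 𝒱.Obj, X ⟶ X) (X : ι → 𝒱.Obj)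
    (Z : 𝒱.Obj) (χ : ℚ[X]) : Prop where
  standard : IsStandard H
  frobenius : ∀ X, IsFrobenius A (F X) (Fintype.card κ)
  product : ∀ X Y, F (X.prod Y) = prodMap (F X) (F Y)
  model : ∀ i, IsModel (C i) H (F (X i)) τ
  polarized : ∀ i, IsPolarized H (X i)
  algebraic : ∀ b ∈ eigenvaluesOf (H.pull (F Z)) τ, IsAlgebraic ℚ b
  ne_zero : χ.coeff 0 ≠ 0
  base : IsGoodBase (Fintype.card κ) N lam (productsOf (H.pull (F Z)) χ τ)

/-- The étale homology of a scheme `U` of dimension `e`: a vector space `M` with subspaces `W c` and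
the Frobenius `μ`. -/
structure Homology (K : Type) [Field K] where
  M : Type
  [addCommGroup : AddCommGroup M]
  [module : Module K M]
  W : ℤ → Submodule K M
  μ : Module.End K M
  e : ℤ

attribute [instance] Homology.addCommGroup Homology.module

/-- The Frobenius preserves the degrees and satisfies the polynomial `χ`: `∑ b_n μ ^ n x = 0`, where the
`b_n` are the coefficients of `χ`. -/
structure IsHomology (U : Homology K) (χ : ℚ[X]) : Prop where
  degree : ∀ (c : ℤ), ∀ x ∈ U.W c, U.μ x ∈ U.W c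
  root : ∀ x : U.M, (χ.sum fun n b => (b : K) • (U.μ^[n]) x) = 0

namespace Homology

variable (U : Homology K) (H : WeilTheoryData.{0, 0, 0} A K)

/-- The space `R(X) = H(X) ⊗ M`. -/
def R (X : 𝒱.Obj) : Type := Tens K (H.A X) U.M

noncomputable instance (X : 𝒱.Obj) : AddCommGroup (U.R H X) :=
  instAddCommGroupTens K (H.A X) U.M

noncomputable instance (X : 𝒱.Obj) : Module K (U.R H X) :=
  instModuleTens K (H.A X) U.M

variable {H}

/-- The element `a ⊗ x`. -/
noncomputable def tmul {X : 𝒱.Obj} (a : H.A X) (x : U.M) : U.R H X := Tens.tmul a x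

/-- The Frobenius endomorphism `Φ` of `X × U` on `R(X)`. -/
noncomputable def Phi (F : ∀ X : 𝒱.Obj, X ⟶ X) (X : 𝒱.Obj) : Module.End K (U.R H X) :=
  Tens.map (ofHom (H.pull (F X))) U.μ

/-- `Φ v - q ^ n v`. -/
noncomputable def defect (F : ∀ X : 𝒱.Obj, X ⟶ X) (q : ℕ) {X : 𝒱.Obj} (n : ℤ) (v : U.R H X) :
    U.R H X := U.Phi F X v - (q : K) ^ n • v

/-- `G` is the map `a ⊗ x ↦ g a ⊗ m x` from `R(X)` to `R(Y)`. -/
def IsTensor {X Y : 𝒱.Obj} (g : H.A X → H.A Y) (m : U.M → U.M) (G : U.R H X → U.R H Y) : Prop :=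
  (∀ v w, G (v + w) = G v + G w) ∧ ∀ (a : H.A X) (x : U.M), G (U.tmul a x) = U.tmul (g a) (m x)

/-- The part of degree `m` of `R(X)`, the sum of the `H^a(X) ⊗ M^(m-a)`, where `W c = M^c`. -/
noncomputable def degreePart (H : WeilTheoryData.{0, 0, 0} A K) (X : 𝒱.Obj) (m : ℤ) :
    Submodule K (U.R H X) :=
  Submodule.span K {v | ∃ (i : ℤ) (a : H.A X) (x : U.M), H.Deg i a ∧ x ∈ U.W (m - i) ∧
    v = U.tmul a x}

end Homology

/-- A theory: vector spaces `M(X)` over `ℚ` with subspaces `M^n(X)`, an operation of the classes in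
`CH(X × Y)` as maps from `M(X)` to `M(Y)`, and maps `φ`. -/
structure Theory (A : TheoryData.{0, 0, 0} 𝒱 ℚ) where
  M : 𝒱.Obj → Type
  [group : ∀ X, AddCommGroup (M X)]
  [module : ∀ X, Module ℚ (M X)]
  gr : ∀ X : 𝒱.Obj, ℤ → Submodule ℚ (M X)
  app : ∀ {X Y : 𝒱.Obj}, A.A (X.prod Y) → M X → M Y
  φ : ∀ X : 𝒱.Obj, M X → M X

attribute [instance] Theory.group Theory.module

/-- The operation of correspondences is bilinear, compatible with composition, and shifts the degrees
as usual. -/
structure IsTheory (T : Theory A) : Prop where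
  left : ∀ {X Y : 𝒱.Obj} (z : T.M X), IsLinearMap ℚ fun c : A.A (X.prod Y) => T.app c z
  right : ∀ {X Y : 𝒱.Obj} (c : A.A (X.prod Y)), IsLinearMap ℚ (T.app c)
  mem : ∀ {X Y : 𝒱.Obj} {i j : ℤ} {c : A.A (X.prod Y)} {z : T.M X}, A.Deg (X.dim + j) c →
    z ∈ T.gr X i → T.app c z ∈ T.gr Y (i + j)
  comp : ∀ {X Y Z : 𝒱.Obj} (c : A.A (X.prod Y)) (d : A.A (Y.prod Z)) (z : T.M X),
    T.app (compose A c d) z = T.app d (T.app c z)
  id : ∀ {X : 𝒱.Obj} (z : T.M X), T.app (diagonal A X) z = z

/-- `φ` is linear and commutes with correspondences, and the Frobenius endomorphism of `X × U`, the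
product of `φ` and of the Frobenius endomorphism of `X`, is `q ^ n` on `M^n(X)`. -/
structure HasFrobenius (T : Theory A) (F : ∀ X : 𝒱.Obj, X ⟶ X) (q : ℕ) : Prop where
  linear : ∀ X : 𝒱.Obj, IsLinearMap ℚ (T.φ X)
  comm : ∀ {X Y : 𝒱.Obj} (c : A.A (X.prod Y)) (z : T.M X),
    T.φ Y (T.app c z) = T.app c (T.φ X z)
  power : ∀ {X : 𝒱.Obj} {n : ℤ}, ∀ z ∈ T.gr X n,
    T.app (A.down (Obj.lift (F X) (𝟙 X)) 1) (T.φ X z) = (q : ℚ) ^ n • z

/-- `χ (φ) = 0`: `∑ b_n φ ^ n z = 0`, where the `b_n` are the coefficients of `χ`. -/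
def IsRoot (T : Theory A) (χ : ℚ[X]) : Prop :=
  ∀ (X : 𝒱.Obj) (n : ℤ), ∀ z ∈ T.gr X n, (χ.sum fun n b => b • ((T.φ X)^[n]) z) = 0

/-- The maps `reg` from the theory `T` to `R(X)` are additive, send `T^n(X)` to the part of degree `2 n`
and commute with correspondences and with the Frobenius of `U`. -/
structure IsRegulator {U : Homology K} {H : WeilTheoryData.{0, 0, 0} A K} (T : Theory A)
    (reg : ∀ X, T.M X → U.R H X) : Prop where
  add : ∀ {X : 𝒱.Obj} (z w : T.M X), reg X (z + w) = reg X z + reg X w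
  mem : ∀ {X : 𝒱.Obj} {n : ℤ}, ∀ z ∈ T.gr X n, reg X z ∈ U.degreePart H X (2 * n)
  corr : ∀ {X Y : 𝒱.Obj} {c : A.A (X.prod Y)} {G : U.R H X → U.R H Y},
    U.IsTensor (H.act (H.cl c)) id G → ∀ z, reg Y (T.app c z) = G (reg X z)
  frob : ∀ {X : 𝒱.Obj} {G : U.R H X → U.R H X}, U.IsTensor id U.μ G →
    ∀ z, reg X (T.φ X z) = G (reg X z)

/-- The codimension `dim X + e - i` of the cycles of dimension `i` on `X × U`. -/
def Homology.codim (U : Homology K) (X : 𝒱.Obj) (i : ℤ) : ℤ := X.dim + U.e - i

section maps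

variable {U : Homology K} {H : WeilTheoryData.{0, 0, 0} A K} {T : Theory A}
  (reg : ∀ X, T.M X → U.R H X) (F : ∀ X : 𝒱.Obj, X ⟶ X) (q : ℕ) (X : 𝒱.Obj) (i : ℤ)

/-- `cl_i` is injective for `X × U`. -/
def Injective : Prop := ∀ z ∈ T.gr X (U.codim X i), reg X z = 0 → z = 0

/-- `cl_i` is surjective onto the invariants for `X × U`. -/
def Surjective : Prop :=
  ∀ v ∈ U.degreePart H X (2 * U.codim X i), U.defect F q (U.codim X i) v = 0 →
    ∃ z ∈ T.gr X (U.codim X i), reg X z = v

/-- `cl_i` is an isomorphism for `X × U`. -/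
def IsIso : Prop := Injective reg X i ∧ Surjective reg F q X i

variable (U H)

/-- `SS_i(X × U)`: the eigenvalue `1` of the Frobenius is semisimple. -/
def Semisimple : Prop :=
  ∀ v ∈ U.degreePart H X (2 * U.codim X i),
    U.defect F q (U.codim X i) (U.defect F q (U.codim X i) v) = 0 →
      U.defect F q (U.codim X i) v = 0

end maps

/-- The conclusions for the product `V` of the `X i` with `i ∈ L` and of `Z`. -/
structure Conclusions {ι : Type} {U : Homology K} {H : WeilTheoryData.{0, 0, 0} A K}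
    (F : ∀ X : 𝒱.Obj, X ⟶ X) (q : ℕ) (χ : ℚ[X]) (X : ι → 𝒱.Obj) (Z : 𝒱.Obj)
    (T : Theory A) (reg : ∀ X, T.M X → U.R H X) (L : List ι) : Prop where
  surjective : ∀ i : ℤ, Surjective reg F q (productOf X Z L) i ↔
    ∀ l : ℕ, l ≤ dimension X L → Surjective reg F q Z (i - l)
  semisimple : ∀ i : ℤ, Semisimple U H F q (productOf X Z L) i ↔
    ∀ l : ℕ, l ≤ dimension X L → Semisimple U H F q Z (i - l)
  bijective : (∀ L, Nilpotence H (productOf X Z L)) → IsRoot T χ → ∀ i : ℤ,
    (Injective reg (productOf X Z L) i ↔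
      ∀ l : ℕ, l ≤ dimension X L → Injective reg Z (i - l)) ∧
    (IsIso reg F q (productOf X Z L) i ↔ ∀ l : ℕ, l ≤ dimension X L → IsIso reg F q Z (i - l))

end geometry

end Pool.Agent.N876.GB3
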