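import Pool.Agent.N876.CG.ModE
import Pool.Agent.W484.CK.Main
import Pool.Agent.W484.CK.Motivic
import Pool.Agent.N876.GB3.Defs

/-!
# Proof of `MP_3af9db_ag.HyperplaneCoverings`
-/

set_option autoImplicit false

open Finset Polynomial CategoryTheory AlgebraicGeometry
open scoped TensorProduct

namespace Pool.Agent.N876.GB3

open Pool.Agent.H914 Pool.Agent.H914.VarClass Pool.Agent.H914.VarClass.Obj Pool.Agent.W492.BB
  Pool.Agent.W484.CK

theorem main (c : ℕ) [Fact c.Prime] (κ : Type) [Field κ] [Fintype κ] [CharP κ c] {ι : Type}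
    (C : ι → Covering κ) (f N lam : ℕ) (hC : IsSmallSystem C c f N lam)
    {𝒱 : VarClass κ} (A : TheoryData.{0, 0, 0} 𝒱 ℚ) [IsChow A] {K : Type} [Field K]
    [IsAlgClosed K] [CharZero K] (H : WeilTheoryData.{0, 0, 0} A K) [IsWeil H] (τ : K →+* ℂ)
    (F : ∀ X : 𝒱.Obj, X ⟶ X) (X : ι → 𝒱.Obj) (Z : 𝒱.Obj) (χ : ℚ[X])
    (h : IsCoveringSystem C N lam H τ F X Z χ) (U : Homology K) (hU : IsHomology U χ)
    (T : Theory A) (hT : IsTheory T) (hF : HasFrobenius T F (Fintype.card κ))
    (reg : ∀ X, T.M X → U.R H X) (hreg : IsRegulator T reg) (L : List ι) (hL : L.Nodup) :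
    Conclusions F (Fintype.card κ) χ X Z T reg L := by
  obtain ⟨hf, hC, hN, hdN, hsmall⟩ := hC
  obtain ⟨hstd, hfrob, hprod, hmodel, hpol, halg, hχ0, hbase⟩ := h
  have hfin := hstd.finite
  have hf0 : 0 < f := by
    rcases Nat.eq_zero_or_pos f with h | h
    · rw [h, pow_zero] at hf
      have := Fintype.one_lt_card (α := κ)
      omega
    · exact h
  choose g T' hσT hgT hT' hcov hpure using hmodel
  have hsmall' : ∀ I : Finset ι, I.Nonempty → Pool.Agent.N876.UV.SmallI c f N lam
      (fun i => (C i).N) (fun i => (C i).n) (fun i => (C i).s) (fun i => (C i).a) I := by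
    intro I hI j hj
    obtain ⟨u, hu, hlt⟩ := hsmall I hI j hj
    refine ⟨u, hu, Pool.Agent.N876.UV.weight_conv' hf0 hN hdN I
      (fun i => ∑ k, ∑ t ∈ range f, (u * j i * (C i).a k * c ^ t) % (C i).N) ?_⟩
    refine lt_of_le_of_lt (le_of_eq ?_) hlt
    congr 1
    refine sum_congr rfl fun i _ => ?_
    unfold Covering.weight
    push_cast
    rfl
  have hcov' : ∀ i, Pool.Agent.N876.TC.IsCov (C i).N (C i).l (C i).a (C i).z
      ((ofHom (H.pull (F (X i)))).restrict (hσT i)) ((ofHom (H.pull (g i))).restrict (hgT i)) :=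
    fun i => ⟨(hcov i).commute, (hcov i).order, (hcov i).invariants,
      fun L _ _ _ t => (hcov i).lefschetz L t⟩
  have hres : ∀ SZ, Pool.Agent.N876.FL.OtherOK τ (Fintype.card κ) N lam SZ →
      Pool.Agent.N876.FL.NoResF (Fintype.card κ : K)
        (fun i => {α | Module.End.HasEigenvalue
          ((ofHom (H.pull (F (X i)))).restrict (hσT i)) α}) SZ :=
    fun SZ hSZ => Pool.Agent.N876.FL.nores_cov hN (fun i => (hC i).two_le) hdN κ hf
      (fun i => (hC i).root) (fun i => (C i).l) (fun i => (C i).a) (fun i => (hC i).coprime) τ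
      hcov' hsmall' hpure hSZ
  have htw : ∀ L : List ι, productOf X Z L = Pool.Agent.N876.CG.tw X Z L := by
    intro L
    induction L with
    | nil => rfl
    | cons i L ih => rw [productOf, Pool.Agent.N876.CG.tw, ih]
  have hdim : ∀ L : List ι, dimension X L = Pool.Agent.N876.CG.dims X L := by
    intro L
    induction L with
    | nil => rfl
    | cons i L ih => rw [dimension, Pool.Agent.N876.CG.dims, ih]
  have hq0 : Fintype.card κ ≠ 0 := Fintype.card_ne_zero
  have hsys : Pool.Agent.N876.CG.Cr H F (Fintype.card κ) X Z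
      (fun i => {α | Module.End.HasEigenvalue
          ((ofHom (H.pull (F (X i)))).restrict (hσT i)) α}) {ρ | aeval ρ χ = 0} :=
    { std := isStandard_bridge hstd
      one_lt := Fintype.one_lt_card
      frob := fun X => isFrobenius_bridge (hfrob X)
      prod := hprod
      cg := fun i => ⟨T' i, hσT i, hT' i, fun α hα => hα⟩
      int := fun i α hα => Pool.Agent.N876.CG.int_cov hN (fun i => (hC i).two_le) hdN κ hf
        (fun i => (hC i).root) (fun i => (C i).l) (fun i => (C i).a) (fun i => (hC i).coprime) τ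
        hcov' hsmall' hpure i α hα
      ne := fun i α hα h0 => by
        have h1 := hpure i α hα
        rw [h0, map_zero, norm_zero, zero_pow two_ne_zero] at h1
        have h2 : (0 : ℝ) < (Fintype.card κ : ℝ) := by exact_mod_cast Nat.pos_of_ne_zero hq0
        exact (pow_pos h2 _).ne h1
      intZ := fun β hβ => Pool.Agent.N876.CG.integral_of_emb τ (halg _ ⟨β, hβ, rfl⟩)
      res := by
        have himg : (τ '' {γ | ∃ β ρ, (Pool.Agent.W484.CH.frob H (F Z)).HasEigenvalue β ∧
            ρ ∈ {ρ : K | aeval ρ χ = 0} ∧ γ = β * ρ}) = productsOf (H.pull (F Z)) χ τ := by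
          ext b
          constructor
          · rintro ⟨_, ⟨β, ρ, hβ, hρ, rfl⟩, rfl⟩
            exact ⟨β, ρ, hβ, hρ, rfl⟩
          · rintro ⟨β, ρ, hβ, hρ, rfl⟩
            exact ⟨_, ⟨β, ρ, hβ, hρ, rfl⟩, rfl⟩
        refine hres _ ⟨?_, ?_⟩
        · rintro _ ⟨β, ρ, hβ, hρ, rfl⟩
          exact hbase.1 _ ⟨β, ρ, hβ, hρ, rfl⟩
        · rcases hbase.2 with h | h
          · left
            rw [himg]
            exact h
          · right
            rintro _ ⟨β, ρ, hβ, hρ, rfl⟩
            exact h _ ⟨β, ρ, hβ, hρ, rfl⟩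
      res1 := hres _ (Pool.Agent.N876.FL.otherOK_one τ _ _ _) }
  have hdimV : ((productOf X Z L).dim : ℤ) = Z.dim + dimension X L := by
    clear hL
    induction L with
    | nil => simp [productOf, dimension]
    | cons i L ih =>
      rw [productOf, dimension, Obj.dim_prod]
      push_cast
      rw [ih]
      ring
  let T' : MotivicData A :=
    { M := T.M
      gr := T.gr
      act := fun {X Y} =>
        { toFun := fun c => (hT.right c).mk' _
          map_add' := fun c d => LinearMap.ext fun z => (hT.left z).map_add c d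
          map_smul' := fun a c => LinearMap.ext fun z => (hT.left z).map_smul a c } }
  have hT' : IsMotivic T' :=
    { app_mem := fun hc hz => hT.mem hc hz
      app_comp := fun c d z => hT.comp c d z
      app_id := fun z => hT.id z }
  let reg' : ∀ (X : 𝒱.Obj), (toCorr T').M X →ₗ[ℚ]
      (Pool.Agent.N876.CG.modT H U.M (Pool.Agent.N876.CG.part H U.W 0)).M X := fun X =>
    (show (toCorr T').M X →+
      (Pool.Agent.N876.CG.modT H U.M (Pool.Agent.N876.CG.part H U.W 0)).M X from
        AddMonoidHom.mk' (M := T.M X) (G := U.R H X) (reg X)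
          fun z w => hreg.add z w).toRatLinearMap
  let phi0 : ∀ (X : 𝒱.Obj), Module.End ℚ (T.M X) := fun X => (hF.linear X).mk' _
  let phi : ∀ (X : 𝒱.Obj), Module.End ℚ ((toCorr T').M X) := phi0
  have hpart : ∀ (X : 𝒱.Obj) (n : ℤ),
      U.degreePart H X (2 * n) = Pool.Agent.N876.CG.part H U.W 0 X n := fun X n => by
    unfold Homology.degreePart Pool.Agent.N876.CG.part
    simp only [add_zero]
    rfl
  have hdel : ∀ (X : 𝒱.Obj) (n : ℤ) (v : U.R H X),
      Pool.Agent.N876.CG.Del (Pool.Agent.N876.CG.modT H U.M (Pool.Agent.N876.CG.part H U.W 0))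
        (Pool.Agent.N876.CG.phiM (Pool.Agent.N876.CG.part H U.W 0) U.μ) F (Fintype.card κ) X n v =
        U.defect F (Fintype.card κ) n v := fun X n v =>
    Pool.Agent.N876.CG.Del_modT n v
  have hr : Pool.Agent.N876.CG.RegTo H F (Fintype.card κ) U.W U.μ 0
      (toCorr T') phi reg' :=
    { corr := toCorr_isCorrTheory hT'
      comm := fun Γ z => hF.comm Γ z
      power := fun X n z hz => by
        have h1 := hF.power z hz
        exact sub_eq_zero.2 h1
      mem := fun X n z hz => by
        rw [← hpart]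
        exact hreg.mem z hz
      act := fun Γ z => hreg.corr
        (G := Pool.Agent.N876.CG.actM H U.M Γ)
          ⟨fun v w => map_add (Pool.Agent.N876.CG.actM H U.M Γ) v w, fun a x => rfl⟩ z
      frob := fun X z => hreg.frob
        (G := LinearMap.lTensor (H.A X) U.μ)
          ⟨fun v w => map_add (LinearMap.lTensor (H.A X) U.μ) v w, fun a x => rfl⟩ z }
  have hμ : aeval U.μ (χ.map (algebraMap ℚ K)) = 0 := by
    refine LinearMap.ext fun x => ?_
    rw [Polynomial.aeval_endomorphism, Polynomial.sum_def,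
      Polynomial.support_map_of_injective χ (algebraMap ℚ K).injective, LinearMap.zero_apply]
    refine Eq.trans (Finset.sum_congr rfl fun n _ => ?_) (hU.root x)
    rw [Polynomial.coeff_map, Module.End.pow_apply, eq_ratCast]
  have e2 : ∀ i l : ℤ, U.codim Z (i - l) = U.codim Z i + l := fun i l => by
    unfold Homology.codim
    ring
  -- the range of the codimensions
  have hrange : ∀ (i : ℤ) (P : ℤ → Prop),
      (∀ m : ℤ, U.codim (productOf X Z L) i - Pool.Agent.N876.CG.dims X L ≤ m →
        m ≤ U.codim (productOf X Z L) i → P m) ↔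
      ∀ l : ℕ, l ≤ dimension X L → P (U.codim Z i + l) := by
    intro i P
    rw [← hdim L]
    unfold Homology.codim
    rw [hdimV]
    constructor
    · intro h1 l hl
      exact h1 _ (by omega) (by omega)
    · intro h1 m h2 h3
      obtain ⟨l, hl⟩ := Int.eq_ofNat_of_zero_le
        (show 0 ≤ m - ((Z.dim : ℤ) + U.e - i) by omega)
      have h4 := h1 l (by omega)
      have h5 : (Z.dim : ℤ) + U.e - i + l = m := by omega
      rwa [h5] at h4
  have hOns : ∀ (V : 𝒱.Obj) (n : ℤ),
      (∀ v ∈ U.degreePart H V (2 * n), U.defect F (Fintype.card κ) n v = 0 →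
        ∃ z ∈ T.gr V n, reg V z = v) ↔
      ∀ v ∈ (Pool.Agent.N876.CG.eigT
        (Pool.Agent.N876.CG.modT H U.M (Pool.Agent.N876.CG.part H U.W 0))
        (Pool.Agent.N876.CG.phiM (Pool.Agent.N876.CG.part H U.W 0) U.μ) F (Fintype.card κ)).gr V n,
          ∃ z ∈ (toCorr T').gr V n, reg' V z = v := by
    intro V n
    rw [hpart]
    constructor
    · intro h1 v hv
      obtain ⟨h2, h3⟩ := Pool.Agent.N876.CG.mem_eigT.1 hv
      exact h1 v h2 ((hdel V n v).symm.trans h3)
    · intro h1 v h2 h3
      exact h1 v (Pool.Agent.N876.CG.mem_eigT.2 ⟨h2, (hdel V n v).trans h3⟩)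
  have hSns : ∀ (V : 𝒱.Obj) (n : ℤ),
      (∀ v ∈ U.degreePart H V (2 * n),
        U.defect F (Fintype.card κ) n (U.defect F (Fintype.card κ) n v) = 0 →
        U.defect F (Fintype.card κ) n v = 0) ↔
      ∀ v ∈ (Pool.Agent.N876.CG.modT H U.M (Pool.Agent.N876.CG.part H U.W 0)).gr V n,
        Pool.Agent.N876.CG.Del (Pool.Agent.N876.CG.modT H U.M (Pool.Agent.N876.CG.part H U.W 0))
          (Pool.Agent.N876.CG.phiM (Pool.Agent.N876.CG.part H U.W 0) U.μ) F (Fintype.card κ) V n
          (Pool.Agent.N876.CG.Del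
            (Pool.Agent.N876.CG.modT H U.M (Pool.Agent.N876.CG.part H U.W 0))
            (Pool.Agent.N876.CG.phiM (Pool.Agent.N876.CG.part H U.W 0) U.μ) F (Fintype.card κ)
            V n v) = 0 →
        Pool.Agent.N876.CG.Del (Pool.Agent.N876.CG.modT H U.M (Pool.Agent.N876.CG.part H U.W 0))
          (Pool.Agent.N876.CG.phiM (Pool.Agent.N876.CG.part H U.W 0) U.μ) F (Fintype.card κ)
          V n v = 0 := by
    intro V n
    rw [hpart]
    refine forall_congr' fun v => forall_congr' fun hv => ?_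
    rw [hdel, hdel]
    rfl
  have hsurj : ∀ i : ℤ, Surjective reg F (Fintype.card κ) (productOf X Z L) i ↔
      ∀ l : ℕ, l ≤ dimension X L → Surjective reg F (Fintype.card κ) Z (i - l) := by
    intro i
    have h1 := Pool.Agent.N876.CG.mod_onto hsys hpol hχ0 hμ hq0 hr hL
      (U.codim (productOf X Z L) i)
    unfold Surjective
    simp only [e2]
    rw [hOns, ← hrange i fun m => ∀ v ∈ U.degreePart H Z (2 * m),
      U.defect F (Fintype.card κ) m v = 0 → ∃ z ∈ T.gr Z m, reg Z z = v]
    simp only [hOns]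
    rw [← htw L] at h1
    exact h1
  have hsemi : ∀ i : ℤ, Semisimple U H F (Fintype.card κ) (productOf X Z L) i ↔
      ∀ l : ℕ, l ≤ dimension X L → Semisimple U H F (Fintype.card κ) Z (i - l) := by
    intro i
    have h1 := Pool.Agent.N876.CG.mod_ss hsys hpol hχ0 hμ hU.degree hq0 0 hL
      (U.codim (productOf X Z L) i)
    unfold Semisimple
    simp only [e2]
    rw [hSns, ← hrange i fun m => ∀ v ∈ U.degreePart H Z (2 * m),
      U.defect F (Fintype.card κ) m (U.defect F (Fintype.card κ) m v) = 0 →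
        U.defect F (Fintype.card κ) m v = 0]
    simp only [hSns]
    rw [← htw L] at h1
    exact h1
  refine ⟨hsurj, hsemi, fun hnil hroot i => ?_⟩
  have hinj : Injective reg (productOf X Z L) i ↔
      ∀ l : ℕ, l ≤ dimension X L → Injective reg Z (i - l) := by
    have h1 := Pool.Agent.N876.CG.mod_inj (χ := χ) hsys hpol hχ0 hr
      (fun L => Pool.Agent.N876.CG.nilT_of (toCorr_isCorrTheory hT') (by
          rw [← htw L]; exact nilpotence_bridge (hnil L)))
      (fun X n z hz => by
        refine (Polynomial.aeval_endomorphism (R := ℚ) (M := T.M X) (phi0 X) z χ).trans ?_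
        refine Eq.trans (Finset.sum_congr rfl fun n _ => ?_) (hroot X n z hz)
        refine congrArg (fun y : T.M X => χ.coeff n • y) ?_
        exact Module.End.pow_apply (R := ℚ) (M := T.M X) (phi0 X) n z) hL
      (U.codim (productOf X Z L) i)
    unfold Injective
    simp only [e2]
    rw [← hrange i fun m => ∀ z ∈ T.gr Z m, reg Z z = 0 → z = 0]
    rw [← htw L] at h1
    exact h1
  refine ⟨hinj, ?_⟩
  unfold IsIso
  rw [hinj, hsurj]
  exact ⟨fun ⟨h3, h4⟩ l hl => ⟨h3 l hl, h4 l hl⟩,
    fun h0 => ⟨fun l hl => (h0 l hl).1, fun l hl => (h0 l hl).2⟩⟩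

end Pool.Agent.N876.GB3
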